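import Mathlib

/-!
# MP_21cc58_al: equal order and equal degree pattern do not force equal prime graphs

Let `p, s, q, r` be distinct primes with `q * r ∣ p - 1` and `q * r ∣ s - 1`.  The groups
`(C_p ⋊ C_q) × (C_s ⋊ C_r)` and `(C_p ⋊ C_r) × (C_s ⋊ C_q)` have the same order and the same degree
pattern `(2,2,2,2)`, but different Gruenberg-Kegel graphs.
-/

set_option autoImplicit false

namespace Pool.Agent.Results.MP_21cc58_al.EqualOrderCounterexample

/-- The prime graph (Gruenberg-Kegel graph) of `G`: `p` and `q` are joined when they are distinct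
primes and `G` has an element of order `p * q`.  It is recorded as a graph on all naturals; the
vertices outside `π(G)` are isolated in it. -/
def GK (G : Type) [Group G] : SimpleGraph ℕ where
  Adj p q := p ≠ q ∧ p.Prime ∧ q.Prime ∧ ∃ g : G, orderOf g = p * q
  symm := ⟨fun p q ⟨h1, h2, h3, g, hg⟩ => ⟨h1.symm, h3, h2, g, by rw [hg, mul_comm]⟩⟩
  loopless := ⟨fun _ h => h.1 rfl⟩

/-- The degree of `p` in the prime graph. -/
noncomputable def deg (G : Type) [Group G] (p : ℕ) : ℕ := ((GK G).neighborSet p).ncard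

/-- The degree pattern: the degrees of the prime divisors of `|G|`, listed in increasing order of
the primes. -/
noncomputable def degreePattern (G : Type) [Group G] : List ℕ :=
  ((Nat.card G).primeFactors.sort (· ≤ ·)).map (deg G)

/-- Nonabelian groups of order `p * q`. -/
theorem exists_nonab (p q : ℕ) (hp : p.Prime) (hq : q.Prime) (h : q ∣ p - 1) :
    ∃ (A : Type) (_ : Group A) (_ : Finite A), Nat.card A = p * q ∧ ∃ a b : A, a * b ≠ b * a := by
  have : Fact p.Prime := ⟨hp⟩
  have : Fact q.Prime := ⟨hq⟩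
  have hc : Nat.card (ZMod p)ˣ = p - 1 := by
    rw [Nat.card_eq_fintype_card, ZMod.card_units]
  obtain ⟨u, hu⟩ := exists_prime_orderOf_dvd_card' (G := (ZMod p)ˣ) q (by rwa [hc])
  let φ : Subgroup.zpowers u →* MulAut (Multiplicative (ZMod p)) :=
    ((MulAutMultiplicative (ZMod p)).symm.toMonoidHom.comp
      (DistribMulAction.toAddAut (ZMod p)ˣ (ZMod p))).comp (Subgroup.zpowers u).subtype
  have hφ : ∀ (v : Subgroup.zpowers u) (x : ZMod p),
      φ v (Multiplicative.ofAdd x) = Multiplicative.ofAdd ((v : (ZMod p)ˣ) • x) := fun _ _ => rfl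
  refine ⟨Multiplicative (ZMod p) ⋊[φ] Subgroup.zpowers u, inferInstance, ?_, ?_, ?_⟩
  · exact Finite.of_equiv _ SemidirectProduct.equivProd.symm
  · rw [SemidirectProduct.card, Nat.card_zpowers, hu]
    congr 1
    rw [Nat.card_eq_fintype_card, Fintype.card_multiplicative, ZMod.card]
  · refine ⟨SemidirectProduct.inr ⟨u, Subgroup.mem_zpowers u⟩,
      SemidirectProduct.inl (Multiplicative.ofAdd 1), fun hcomm => ?_⟩
    have h1 := congrArg SemidirectProduct.left hcomm
    rw [SemidirectProduct.mul_left, SemidirectProduct.mul_left] at h1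
    simp only [SemidirectProduct.left_inr, SemidirectProduct.right_inr, one_mul,
      SemidirectProduct.left_inl, SemidirectProduct.right_inl, map_one, mul_one] at h1
    rw [hφ] at h1
    have h2 : (u : (ZMod p)ˣ) • (1 : ZMod p) = 1 := Multiplicative.ofAdd.injective h1
    have h3 : u = 1 := by
      ext
      simpa [Units.smul_def] using h2
    rw [h3, orderOf_one] at hu
    exact hq.one_lt.ne hu

/-- The prime graph of the product of two nonabelian groups of orders `p * q` and `s * r`. -/
theorem gk_prod {A B : Type} [Group A] [Group B] [Finite A] [Finite B] {p q s r : ℕ}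
    (hp : p.Prime) (hq : q.Prime) (hs : s.Prime) (hr : r.Prime) (hpq : p ≠ q) (hsr : s ≠ r)
    (hps : p ≠ s) (hpr : p ≠ r) (hqs : q ≠ s) (hqr : q ≠ r)
    (hA : Nat.card A = p * q) (hB : Nat.card B = s * r)
    (nA : ∃ a b : A, a * b ≠ b * a) (nB : ∃ a b : B, a * b ≠ b * a) (x y : ℕ) :
    (GK (A × B)).Adj x y ↔
      ((x = p ∨ x = q) ∧ (y = s ∨ y = r)) ∨ ((x = s ∨ x = r) ∧ (y = p ∨ y = q)) := by
  have hcop : (p * q).Coprime (s * r) := by
    refine Nat.Coprime.mul_left ?_ ?_
    · exact Nat.Coprime.mul_right ((Nat.coprime_primes hp hs).2 hps)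
        ((Nat.coprime_primes hp hr).2 hpr)
    · exact Nat.Coprime.mul_right ((Nat.coprime_primes hq hs).2 hqs)
        ((Nat.coprime_primes hq hr).2 hqr)
  -- no element of order `p * q` in `A`
  have key : ∀ {C : Type} [Group C] [Finite C] (n : ℕ), Nat.card C = n →
      (∃ a b : C, a * b ≠ b * a) → ∀ g : C, orderOf g ≠ n := by
    intro C _ _ n hn ⟨a, b, hab⟩ g hg
    have h1 : IsCyclic C := isCyclic_of_orderOf_eq_card g (by rw [hg, hn])
    exact hab ((IsCyclic.commGroup (α := C)).mul_comm a b)
  have exA : ∀ z, z = p ∨ z = q → ∃ a : A, orderOf a = z := by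
    intro z hz
    have hzp : z.Prime := by rcases hz with rfl | rfl <;> assumption
    have : Fact z.Prime := ⟨hzp⟩
    refine exists_prime_orderOf_dvd_card' z ?_
    rw [hA]
    rcases hz with rfl | rfl
    · exact dvd_mul_right _ _
    · exact dvd_mul_left _ _
  have exB : ∀ z, z = s ∨ z = r → ∃ a : B, orderOf a = z := by
    intro z hz
    have hzp : z.Prime := by rcases hz with rfl | rfl <;> assumption
    have : Fact z.Prime := ⟨hzp⟩
    refine exists_prime_orderOf_dvd_card' z ?_
    rw [hB]
    rcases hz with rfl | rfl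
    · exact dvd_mul_right _ _
    · exact dvd_mul_left _ _
  have hprime : ∀ z, (z = p ∨ z = q) ∨ (z = s ∨ z = r) → z.Prime := by
    rintro z ((rfl | rfl) | (rfl | rfl)) <;> assumption
  have hne : ∀ z w, (z = p ∨ z = q) → (w = s ∨ w = r) → z ≠ w := by
    rintro z w (rfl | rfl) (rfl | rfl) <;> assumption
  have hex : ∀ z w, (z = p ∨ z = q) → (w = s ∨ w = r) → ∃ g : A × B, orderOf g = z * w := by
    intro z w hz hw
    obtain ⟨a, ha⟩ := exA z hz
    obtain ⟨b, hb⟩ := exB w hw
    refine ⟨(a, b), ?_⟩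
    rw [Prod.orderOf, ha, hb]
    exact Nat.Coprime.lcm_eq_mul
      ((Nat.coprime_primes (hprime z (Or.inl hz)) (hprime w (Or.inr hw))).2 (hne z w hz hw))
  constructor
  · rintro ⟨hxy, hx, hy, g, hg⟩
    have hcard : Nat.card (A × B) = (p * q) * (s * r) := by rw [Nat.card_prod, hA, hB]
    have hmem : ∀ z : ℕ, z.Prime → z ∣ (p * q) * (s * r) → (z = p ∨ z = q) ∨ (z = s ∨ z = r) := by
      intro z hz hd
      rcases (Nat.Prime.dvd_mul hz).1 hd with h | h
      · left
        rcases (Nat.Prime.dvd_mul hz).1 h with h | h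
        · exact Or.inl ((Nat.prime_dvd_prime_iff_eq hz hp).1 h)
        · exact Or.inr ((Nat.prime_dvd_prime_iff_eq hz hq).1 h)
      · right
        rcases (Nat.Prime.dvd_mul hz).1 h with h | h
        · exact Or.inl ((Nat.prime_dvd_prime_iff_eq hz hs).1 h)
        · exact Or.inr ((Nat.prime_dvd_prime_iff_eq hz hr).1 h)
    have hxd : x ∣ (p * q) * (s * r) := by
      rw [← hcard]; exact (Dvd.intro _ rfl : x ∣ x * y).trans (hg ▸ orderOf_dvd_natCard g)
    have hyd : y ∣ (p * q) * (s * r) := by
      rw [← hcard]; exact (Dvd.intro_left _ rfl : y ∣ x * y).trans (hg ▸ orderOf_dvd_natCard g)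
    have hlcm : (orderOf g.1).lcm (orderOf g.2) = x * y := by rw [← Prod.orderOf_mk]; exact hg
    have hd1 : orderOf g.1 ∣ p * q := hA ▸ orderOf_dvd_natCard g.1
    have hd2 : orderOf g.2 ∣ s * r := hB ▸ orderOf_dvd_natCard g.2
    rcases hmem x hx hxd with h1 | h1 <;> rcases hmem y hy hyd with h2 | h2
    · -- both in `{p, q}`
      exfalso
      have hxyeq : x * y = p * q := by
        rcases h1 with rfl | rfl <;> rcases h2 with rfl | rfl
        · exact absurd rfl hxy
        · rfl
        · exact mul_comm _ _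
        · exact absurd rfl hxy
      have h3 : orderOf g.2 ∣ p * q := by
        rw [← hxyeq, ← hlcm]; exact Nat.dvd_lcm_right _ _
      have h4 : orderOf g.2 = 1 := Nat.eq_one_of_dvd_coprimes hcop h3 hd2
      rw [h4, Nat.lcm_one_right, hxyeq] at hlcm
      exact key _ hA nA g.1 hlcm
    · exact Or.inl ⟨h1, h2⟩
    · exact Or.inr ⟨h1, h2⟩
    · exfalso
      have hxyeq : x * y = s * r := by
        rcases h1 with rfl | rfl <;> rcases h2 with rfl | rfl
        · exact absurd rfl hxy
        · rfl
        · exact mul_comm _ _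
        · exact absurd rfl hxy
      have h3 : orderOf g.1 ∣ s * r := by
        rw [← hxyeq, ← hlcm]; exact Nat.dvd_lcm_left _ _
      have h4 : orderOf g.1 = 1 := Nat.eq_one_of_dvd_coprimes hcop hd1 h3
      rw [h4, Nat.lcm_one_left, hxyeq] at hlcm
      exact key _ hB nB g.2 hlcm
  · rintro (⟨hx, hy⟩ | ⟨hx, hy⟩)
    · exact ⟨hne x y hx hy, hprime x (Or.inl hx), hprime y (Or.inr hy), hex x y hx hy⟩
    · refine ⟨(hne y x hy hx).symm, hprime x (Or.inr hx), hprime y (Or.inl hy), ?_⟩
      obtain ⟨g, hg⟩ := hex y x hy hx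
      exact ⟨g, by rw [hg, mul_comm]⟩

theorem deg_eq_two {A B : Type} [Group A] [Group B] [Finite A] [Finite B] {p q s r : ℕ}
    (hp : p.Prime) (hq : q.Prime) (hs : s.Prime) (hr : r.Prime) (hpq : p ≠ q) (hsr : s ≠ r)
    (hps : p ≠ s) (hpr : p ≠ r) (hqs : q ≠ s) (hqr : q ≠ r)
    (hA : Nat.card A = p * q) (hB : Nat.card B = s * r)
    (nA : ∃ a b : A, a * b ≠ b * a) (nB : ∃ a b : B, a * b ≠ b * a) (x : ℕ)
    (hx : (x = p ∨ x = q) ∨ (x = s ∨ x = r)) : deg (A × B) x = 2 := by
  have hadj := gk_prod hp hq hs hr hpq hsr hps hpr hqs hqr hA hB nA nB x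
  unfold deg
  rcases hx with hx | hx
  · have : (GK (A × B)).neighborSet x = {s, r} := by
      ext y
      rw [SimpleGraph.mem_neighborSet, hadj]
      simp only [Set.mem_insert_iff, Set.mem_singleton_iff]
      constructor
      · rintro (⟨_, h⟩ | ⟨h, _⟩)
        · exact h
        · exfalso
          rcases hx with rfl | rfl <;> rcases h with h | h <;> simp_all
      · intro h
        exact Or.inl ⟨hx, h⟩
    rw [this, Set.ncard_pair hsr]
  · have : (GK (A × B)).neighborSet x = {p, q} := by
      ext y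
      rw [SimpleGraph.mem_neighborSet, hadj]
      simp only [Set.mem_insert_iff, Set.mem_singleton_iff]
      constructor
      · rintro (⟨h, _⟩ | ⟨_, h⟩)
        · exfalso
          rcases hx with rfl | rfl <;> rcases h with h | h <;> simp_all
        · exact h
      · intro h
        exact Or.inr ⟨hx, h⟩
    rw [this, Set.ncard_pair hpq]

/-- The family of counterexamples. -/
theorem family {p s q r : ℕ} (hp : p.Prime) (hs : s.Prime) (hq : q.Prime) (hr : r.Prime)
    (hps : p ≠ s) (hqr : q ≠ r) (hqp : q ∣ p - 1) (hrp : r ∣ p - 1) (hqs : q ∣ s - 1)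
    (hrs : r ∣ s - 1) :
    ∃ (G M : Type) (_ : Group G) (_ : Group M) (_ : Finite G) (_ : Finite M),
      Nat.card G = p * s * (q * r) ∧ Nat.card M = p * s * (q * r) ∧
      degreePattern G = degreePattern M ∧ GK G ≠ GK M := by
  have hlt : ∀ {a b : ℕ}, a.Prime → b.Prime → a ∣ b - 1 → a < b := by
    intro a b _ hb h
    have := Nat.le_of_dvd (by have := hb.two_le; omega) h
    have := hb.two_le
    omega
  have h1 := hlt hq hp hqp
  have h2 := hlt hr hp hrp
  have h3 := hlt hq hs hqs
  have h4 := hlt hr hs hrs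
  obtain ⟨A, iA, fA, cA, nA⟩ := exists_nonab p q hp hq hqp
  obtain ⟨B, iB, fB, cB, nB⟩ := exists_nonab s r hs hr hrs
  obtain ⟨C, iC, fC, cC, nC⟩ := exists_nonab p r hp hr hrp
  obtain ⟨D, iD, fD, cD, nD⟩ := exists_nonab s q hs hq hqs
  have cG : Nat.card (A × B) = p * s * (q * r) := by rw [Nat.card_prod, cA, cB]; ring
  have cM : Nat.card (C × D) = p * s * (q * r) := by rw [Nat.card_prod, cC, cD]; ring
  refine ⟨A × B, C × D, inferInstance, inferInstance, inferInstance, inferInstance, cG, cM, ?_, ?_⟩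
  · unfold degreePattern
    rw [cG, cM]
    apply List.map_congr_left
    intro x hx
    rw [Finset.mem_sort, Nat.mem_primeFactors] at hx
    obtain ⟨hxp, hxd, _⟩ := hx
    have hx4 : x = p ∨ x = s ∨ x = q ∨ x = r := by
      rcases (Nat.Prime.dvd_mul hxp).1 hxd with h | h
      · rcases (Nat.Prime.dvd_mul hxp).1 h with h | h
        · exact Or.inl ((Nat.prime_dvd_prime_iff_eq hxp hp).1 h)
        · exact Or.inr (Or.inl ((Nat.prime_dvd_prime_iff_eq hxp hs).1 h))
      · rcases (Nat.Prime.dvd_mul hxp).1 h with h | h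
        · exact Or.inr (Or.inr (Or.inl ((Nat.prime_dvd_prime_iff_eq hxp hq).1 h)))
        · exact Or.inr (Or.inr (Or.inr ((Nat.prime_dvd_prime_iff_eq hxp hr).1 h)))
    rw [deg_eq_two (A := A) (B := B) hp hq hs hr (by omega) (by omega) (by omega) (by omega)
      (by omega) (by omega) cA cB nA nB x (by tauto),
      deg_eq_two (A := C) (B := D) hp hr hs hq (by omega) (by omega) (by omega) (by omega)
      (by omega) (by omega) cC cD nC nD x (by tauto)]
  · intro hcon
    have e1 := gk_prod (A := A) (B := B) hp hq hs hr (by omega) (by omega) (by omega) (by omega)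
      (by omega) (by omega) cA cB nA nB p r
    have e2 := gk_prod (A := C) (B := D) hp hr hs hq (by omega) (by omega) (by omega) (by omega)
      (by omega) (by omega) cC cD nC nD p r
    rw [hcon] at e1
    have h5 : (GK (C × D)).Adj p r := e1.2 (Or.inl ⟨Or.inl rfl, Or.inr rfl⟩)
    have h6 := e2.1 h5
    omega

/-- There are finite groups of the same order `28365 = 3 * 5 * 31 * 61` with the same degree
pattern and different prime graphs; more generally such groups of order `p * s * q * r` exist for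
all distinct primes `p, s` and distinct primes `q, r` with `q * r` dividing `p - 1` and `s - 1`. -/
theorem result :
    (∃ (G M : Type) (_ : Group G) (_ : Group M) (_ : Finite G) (_ : Finite M),
      Nat.card G = 28365 ∧ Nat.card M = 28365 ∧
      degreePattern G = degreePattern M ∧ GK G ≠ GK M) ∧
    ∀ p s q r : ℕ, p.Prime → s.Prime → q.Prime → r.Prime → p ≠ s → q ≠ r →
      q ∣ p - 1 → r ∣ p - 1 → q ∣ s - 1 → r ∣ s - 1 →
      ∃ (G M : Type) (_ : Group G) (_ : Group M) (_ : Finite G) (_ : Finite M),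
        Nat.card G = p * s * (q * r) ∧ Nat.card M = p * s * (q * r) ∧
        degreePattern G = degreePattern M ∧ GK G ≠ GK M := by
  refine ⟨?_, fun p s q r hp hs hq hr h1 h2 h3 h4 h5 h6 => family hp hs hq hr h1 h2 h3 h4 h5 h6⟩
  exact family (p := 31) (s := 61) (q := 3) (r := 5) (by norm_num) (by norm_num) (by norm_num)
    (by norm_num) (by norm_num) (by norm_num) (by norm_num) (by norm_num) (by norm_num)
    (by norm_num)

end Pool.Agent.Results.MP_21cc58_al.EqualOrderCounterexample
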